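import Pool.Agent.ZES.StmtsB

/-!
Row HFB of block B of ZES: growth and periods of the Hefer functions.
-/

namespace Pool.Agent.ZES.H24

open scoped BigOperators InnerProductSpace
open Pool.Agent.ZES

theorem sp_W {V : Type} [NormedAddCommGroup V] [InnerProductSpace ℂ V] [FiniteDimensional ℂ V]
    (W : Submodule ℂ V) (x : V) : W.starProjection x ∈ W :=
  Submodule.starProjection_apply_mem W x

theorem sp_C {V : Type} [NormedAddCommGroup V] [InnerProductSpace ℂ V] [FiniteDimensional ℂ V]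
    (W : Submodule ℂ V) (x : V) : Wᗮ.starProjection x ∈ Wᗮ :=
  Submodule.starProjection_apply_mem Wᗮ x

theorem sp_add {V : Type} [NormedAddCommGroup V] [InnerProductSpace ℂ V] [FiniteDimensional ℂ V]
    (W : Submodule ℂ V) (x : V) : W.starProjection x + Wᗮ.starProjection x = x :=
  Submodule.starProjection_add_starProjection_orthogonal x

theorem nsq {V : Type} [NormedAddCommGroup V] [InnerProductSpace ℂ V] [FiniteDimensional ℂ V]
    (W : Submodule ℂ V) {u w : V} (hu : u ∈ W) (hw : w ∈ Wᗮ) :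
    ‖u + w‖ ^ 2 = ‖u‖ ^ 2 + ‖w‖ ^ 2 := by
  have h0 : inner ℂ u w = 0 := (Submodule.mem_orthogonal W w).1 hw u hu
  have h := norm_add_sq (𝕜 := ℂ) u w
  rw [h, h0]
  simp

theorem nle {V : Type} [NormedAddCommGroup V] [InnerProductSpace ℂ V] [FiniteDimensional ℂ V]
    (W : Submodule ℂ V) (x : V) (t : ℝ) (h0 : 0 ≤ t) (h1 : t ≤ 1) :
    ‖W.starProjection x + (t : ℂ) • Wᗮ.starProjection x‖ ≤ ‖x‖ := by
  have hx : ‖x‖ ^ 2 = ‖W.starProjection x‖ ^ 2 + ‖Wᗮ.starProjection x‖ ^ 2 := by
    conv_lhs => rw [← sp_add W x]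
    exact nsq W (sp_W W x) (sp_C W x)
  have hy : ‖W.starProjection x + (t : ℂ) • Wᗮ.starProjection x‖ ^ 2
      = ‖W.starProjection x‖ ^ 2 + ‖(t : ℂ) • Wᗮ.starProjection x‖ ^ 2 :=
    nsq W (sp_W W x) (Submodule.smul_mem _ _ (sp_C W x))
  have hn : ‖(t : ℂ) • Wᗮ.starProjection x‖ = t * ‖Wᗮ.starProjection x‖ := by
    rw [norm_smul, Complex.norm_real, Real.norm_of_nonneg h0]
  rw [hn] at hy
  have hq : 0 ≤ ‖Wᗮ.starProjection x‖ ^ 2 := sq_nonneg _
  have ht : t ^ 2 ≤ 1 := by nlinarith
  have : ‖W.starProjection x + (t : ℂ) • Wᗮ.starProjection x‖ ^ 2 ≤ ‖x‖ ^ 2 := by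
    rw [hy, hx]
    nlinarith
  exact (sq_le_sq₀ (norm_nonneg _) (norm_nonneg _)).1 this

theorem al_der {V : Type} [NormedAddCommGroup V] [InnerProductSpace ℂ V] (a : ℝ) (ω y : V) :
    HasFDerivAt (fun z : V => al a ω z) (al a ω y • ((a : ℂ) • innerSL ℂ ω)) y := by
  have h := ((((innerSL ℂ ω).hasFDerivAt (x := y)).add_const
    (((‖ω‖ ^ 2 / 2 : ℝ) : ℂ))).const_mul (a : ℂ)).cexp
  exact h

theorem fd_period {V : Type} [NormedAddCommGroup V] [InnerProductSpace ℂ V]
    (f : V → ℂ) (hf : Differentiable ℂ f) (a : ℝ) (ω : V) (k : ℂ)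
    (h : ∀ x, f (x + ω) = k * al a ω x * f x) (v : V) (hv : inner ℂ ω v = 0) (y : V) :
    fderiv ℂ f (y + ω) v = k * al a ω y * fderiv ℂ f y v := by
  have e1 : fderiv ℂ f (y + ω) = fderiv ℂ (fun z : V => f (z + ω)) y :=
    (fderiv_comp_add_right (𝕜 := ℂ) (f := f) (x := y) ω).symm
  have e2 : (fun z : V => f (z + ω)) = fun z : V => k * (al a ω z * f z) := by
    funext z
    rw [h z, mul_assoc]
  have e3 : HasFDerivAt (fun z : V => k * (al a ω z * f z))
      (k • (al a ω y • fderiv ℂ f y + f y • (al a ω y • ((a : ℂ) • innerSL ℂ ω)))) y :=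
    ((al_der a ω y).mul (hf y).hasFDerivAt).const_mul k
  rw [e1, e2, e3.fderiv]
  have hv' : (innerSL ℂ ω) v = 0 := by
    rw [innerSL_apply_apply]
    exact hv
  simp only [smul_apply, add_apply, hv', smul_eq_mul,
    mul_zero, add_zero]
  ring

theorem hfb (hCAU : CauStmt) : HfbStmt := by
  intro V _ _ _ W f a ha hf
  refine ⟨fun C hC v x => ?_, fun ω hω k hk v hv x => ?_⟩
  · have hC0 : 0 ≤ C := by
      have h0 := (norm_nonneg _).trans (hC 0)
      exact nonneg_of_mul_nonneg_left h0 (Real.exp_pos _)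
    have key : ∀ t ∈ Set.uIoc (0 : ℝ) 1,
        ‖fderiv ℂ f (W.starProjection x + (t : ℂ) • Wᗮ.starProjection x) v‖
          ≤ C * Real.exp (a / 2) * Real.exp (a / 2 * ‖x‖ ^ 2 + a * ‖x‖) * ‖v‖ := by
      intro t ht
      rw [Set.uIoc_of_le zero_le_one] at ht
      have hy := nle W x t ht.1.le ht.2
      have hb : ∀ z, ‖z - (W.starProjection x + (t : ℂ) • Wᗮ.starProjection x)‖ ≤ 1 →
          ‖f z‖ ≤ C * Real.exp (a / 2) * Real.exp (a / 2 * ‖x‖ ^ 2 + a * ‖x‖) := by
        intro z hz
        have hz1 : ‖z‖ ≤ ‖x‖ + 1 := by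
          have h := norm_add_le (z - (W.starProjection x + (t : ℂ) • Wᗮ.starProjection x))
            (W.starProjection x + (t : ℂ) • Wᗮ.starProjection x)
          rw [sub_add_cancel] at h
          linarith
        have hz2 : ‖z‖ ^ 2 ≤ (‖x‖ + 1) ^ 2 := by
          have h0 := norm_nonneg z
          nlinarith
        have e : C * Real.exp (a / 2) * Real.exp (a / 2 * ‖x‖ ^ 2 + a * ‖x‖)
            = C * Real.exp (a / 2 * (‖x‖ + 1) ^ 2) := by
          rw [mul_assoc, ← Real.exp_add]
          congr 2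
          ring
        rw [e]
        refine (hC z).trans (mul_le_mul_of_nonneg_left ?_ hC0)
        exact Real.exp_le_exp.2 (mul_le_mul_of_nonneg_left hz2 (by linarith))
      exact hCAU V f hf _ _ hb v
    have h := intervalIntegral.norm_integral_le_of_norm_le_const key
    rw [sub_zero, abs_one, mul_one] at h
    exact h
  · have hWx : W.starProjection (x + ω) = W.starProjection x + ω := by
      rw [map_add, (Submodule.starProjection_eq_self_iff).2 hω]
    have hCx : Wᗮ.starProjection (x + ω) = Wᗮ.starProjection x := by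
      have h1 := sp_add W (x + ω)
      have h2 := sp_add W x
      rw [hWx] at h1
      have h3 : W.starProjection x + ω + Wᗮ.starProjection (x + ω)
          = W.starProjection x + ω + Wᗮ.starProjection x := by
        rw [h1]
        conv_lhs => rw [← h2]
        abel
      exact add_left_cancel h3
    have hin : ∀ u ∈ Wᗮ, inner ℂ ω u = 0 := fun u hu =>
      (Submodule.mem_orthogonal W u).1 hu ω hω
    have hal : ∀ t : ℝ, al a ω (W.starProjection x + (t : ℂ) • Wᗮ.starProjection x)
        = al a ω x := by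
      intro t
      have e1 : inner ℂ ω (W.starProjection x + (t : ℂ) • Wᗮ.starProjection x)
          = inner ℂ ω x := by
        conv_rhs => rw [← sp_add W x]
        rw [inner_add_right, inner_add_right, hin _ (Submodule.smul_mem _ _ (sp_C W x)),
          hin _ (sp_C W x)]
      unfold al
      rw [e1]
    show (∫ t in (0 : ℝ)..1,
        fderiv ℂ f (W.starProjection (x + ω) + (t : ℂ) • Wᗮ.starProjection (x + ω)) v)
      = k * al a ω x * ∫ t in (0 : ℝ)..1,
        fderiv ℂ f (W.starProjection x + (t : ℂ) • Wᗮ.starProjection x) v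
    rw [← intervalIntegral.integral_const_mul]
    refine intervalIntegral.integral_congr fun t _ => ?_
    show fderiv ℂ f (W.starProjection (x + ω) + (t : ℂ) • Wᗮ.starProjection (x + ω)) v
      = k * al a ω x * fderiv ℂ f (W.starProjection x + (t : ℂ) • Wᗮ.starProjection x) v
    rw [hWx, hCx, ← hal t, ← fd_period f hf a ω k hk v (hin v hv)]
    congr 2
    abel

end Pool.Agent.ZES.H24
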